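import Pool.Agent.Helper57_Sob.Octant
import Pool.Agent.Helper27_Sob.Statements

/-!
Module B1: a homeomorphism carrying a Cantor set of positive measure to a thin one.
-/

set_option autoImplicit false

open Set Filter Topology Metric MeasureTheory
open scoped NNReal ENNReal

namespace Pool.Agent.Helper57Sob

open Pool.Agent.Helper27Sob

/-- the one dimensional approximations of the Cantor set -/
noncomputable def FF : ℕ → ℕ → Set ℝ
  | 0, _ => Icc (-1) 1
  | n + 1, m => {t | (t - sg t) / rh m ∈ FF n (m + 1)}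

theorem FF_succ (n m : ℕ) (t : ℝ) : t ∈ FF (n + 1) m ↔ (t - sg t) / rh m ∈ FF n (m + 1) := Iff.rfl

theorem FF_subset (n : ℕ) : ∀ m, FF n m ⊆ Icc (-1) 1 := by
  induction n with
  | zero => exact fun m => Subset.rfl
  | succ n ih =>
    intro m t ht
    have h1 := ih _ ht
    have h0 := rh_lower m
    have h2 := rh_upper m
    have h3 : |(t - sg t) / rh m| ≤ 1 := abs_le.2 h1
    rw [abs_div, abs_of_pos (by linarith : 0 < rh m), div_le_one (by linarith)] at h3
    have h4 : |t| ≤ |t - sg t| + |sg t| := by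
      calc |t| = |(t - sg t) + sg t| := by rw [sub_add_cancel]
        _ ≤ _ := abs_add_le _ _
    rw [abs_sg] at h4
    exact abs_le.1 (by linarith)

theorem FF_anti (n : ℕ) : ∀ m, FF (n + 1) m ⊆ FF n m := by
  induction n with
  | zero => exact fun m => FF_subset 1 m
  | succ n ih => exact fun m t ht => ih _ ht

theorem FF_eq (n m : ℕ) : FF (n + 1) m = {t | (t - 1 / 2) / rh m ∈ FF n (m + 1)} ∪
    {t | (t + 1 / 2) / rh m ∈ FF n (m + 1)} := by
  have h0 := rh_lower m
  have h2 := rh_upper m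
  have hr : 0 < rh m := by linarith
  ext t
  rw [FF_succ, mem_union, mem_ofPred_eq, mem_ofPred_eq]
  constructor
  · intro h
    unfold sg at h
    split_ifs at h with h1
    · exact Or.inl h
    · right
      have : t + 1 / 2 = t - -1 / 2 := by ring
      rwa [this]
  · rintro (h | h)
    · have h3 := FF_subset n _ h
      have h4 : -rh m ≤ t - 1 / 2 := by
        have := (le_div_iff₀ hr).1 h3.1
        linarith
      have h5 : sg t = 1 / 2 := by
        unfold sg
        rw [if_pos (by linarith)]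
      rwa [h5]
    · have h3 := FF_subset n _ h
      have h4 : t + 1 / 2 ≤ rh m := by
        have := (div_le_iff₀ hr).1 h3.2
        linarith
      have h5 : sg t = -1 / 2 := by
        unfold sg
        rw [if_neg (by linarith)]
      rw [h5]
      have : t - -1 / 2 = t + 1 / 2 := by ring
      rwa [this]

theorem FF_closed (n : ℕ) : ∀ m, IsClosed (FF n m) := by
  induction n with
  | zero => exact fun m => isClosed_Icc
  | succ n ih =>
    intro m
    rw [FF_eq]
    exact ((ih (m + 1)).preimage (f := fun t : ℝ => (t - 1 / 2) / rh m) (by fun_prop)).union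
      ((ih (m + 1)).preimage (f := fun t : ℝ => (t + 1 / 2) / rh m) (by fun_prop))

theorem volume_half (m : ℕ) (c : ℝ) (S : Set ℝ) :
    volume {t : ℝ | (t - c) / rh m ∈ S} = ENNReal.ofReal (rh m) * volume S := by
  have h0 := rh_lower m
  have hr : 0 < rh m := by linarith
  have e1 : {t : ℝ | (t - c) / rh m ∈ S} = (fun t => t - c) ⁻¹' ((fun t => t * (rh m)⁻¹) ⁻¹' S) := by
    ext t
    simp [div_eq_mul_inv]
  have e2 : (fun t : ℝ => t - c) = fun t => t + -c := by
    funext t
    ring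
  rw [e1, e2, measure_preimage_add_right, Real.volume_preimage_mul_right (inv_ne_zero hr.ne'), inv_inv,
    abs_of_pos hr]

theorem FF_volume_succ (n m : ℕ) :
    volume (FF (n + 1) m) = ENNReal.ofReal (2 * rh m) * volume (FF n (m + 1)) := by
  have h0 := rh_lower m
  have h2 := rh_upper m
  have hr : 0 < rh m := by linarith
  have e1 : {t : ℝ | (t + 1 / 2) / rh m ∈ FF n (m + 1)} =
      {t : ℝ | (t - (-1 / 2)) / rh m ∈ FF n (m + 1)} := by
    ext t
    have : t - -1 / 2 = t + 1 / 2 := by ring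
    rw [mem_ofPred_eq, mem_ofPred_eq, this]
  rw [FF_eq, measure_union]
  · rw [e1, volume_half, volume_half, ENNReal.ofReal_mul (by norm_num)]
    rw [← add_mul, ← two_mul]
    norm_num
  · rw [Set.disjoint_left]
    intro t h h'
    have h3 := FF_subset n _ h
    have h3' := FF_subset n _ h'
    have h4 : -rh m ≤ t - 1 / 2 := by
      have := (le_div_iff₀ hr).1 h3.1
      linarith
    have h4' : t + 1 / 2 ≤ rh m := by
      have := (div_le_iff₀ hr).1 h3'.2
      linarith
    linarith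
  · exact ((FF_closed n (m + 1)).preimage (f := fun t : ℝ => (t + 1 / 2) / rh m)
      (by fun_prop)).measurableSet

theorem FF_volume (n : ℕ) : ∀ m,
    ENNReal.ofReal (2 * (1 - (1 / 2) ^ (m + 1))) ≤ volume (FF n m) := by
  induction n with
  | zero =>
    intro m
    change _ ≤ volume (Icc (-1 : ℝ) 1)
    rw [Real.volume_Icc]
    apply ENNReal.ofReal_le_ofReal
    have : (0 : ℝ) < (1 / 2) ^ (m + 1) := by positivity
    linarith
  | succ n ih =>
    intro m
    rw [FF_volume_succ]
    have h0 := rh_lower m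
    refine le_trans ?_ (mul_le_mul_right (ih (m + 1)) _)
    rw [← ENNReal.ofReal_mul (by linarith)]
    apply ENNReal.ofReal_le_ofReal
    unfold rh
    set q : ℝ := (1 / 2) ^ (m + 2) with hq
    have e1 : (1 / 2 : ℝ) ^ (m + 1) = 2 * q := by
      rw [hq, pow_succ (1 / 2 : ℝ) (m + 1)]
      ring
    rw [e1]
    nlinarith [sq_nonneg q]

/-- the one dimensional Cantor set -/
def FI : Set ℝ := ⋂ n, FF n 0

theorem FI_volume : 1 ≤ volume FI := by
  have hanti : Antitone fun n => FF n 0 := antitone_nat_of_succ_le fun n => FF_anti n 0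
  have h1 := tendsto_measure_iInter_atTop (μ := volume) (s := fun n => FF n 0)
    (fun n => (FF_closed n 0).measurableSet.nullMeasurableSet) hanti
    ⟨0, (isCompact_Icc (a := (-1 : ℝ)) (b := 1)).measure_lt_top.ne⟩
  refine ge_of_tendsto h1 (Eventually.of_forall fun n => ?_)
  refine le_trans ?_ (FF_volume n 0)
  norm_num

/-- the approximations of the Cantor set -/
def CC (n m : ℕ) : Set E := {x | ∀ i, x i ∈ FF n m}

theorem mem_CC_succ {n m : ℕ} {x : E} : x ∈ CC (n + 1) m ↔ (rh m)⁻¹ • (x - oc x) ∈ CC n (m + 1) := by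
  unfold CC
  simp only [mem_ofPred_eq]
  refine forall_congr' fun i => ?_
  rw [FF_succ, Pi.smul_apply, smul_eq_mul, Pi.sub_apply, div_eq_inv_mul]
  rfl

theorem CC_norm {n m : ℕ} {x : E} (hx : x ∈ CC n m) : ‖x‖ ≤ 1 :=
  (pi_norm_le_iff_of_nonneg zero_le_one).2 fun i => abs_le.2 (FF_subset n m (hx i))

theorem CC_closed (n m : ℕ) : IsClosed (CC n m) := by
  have : CC n m = ⋂ i, (fun x : E => x i) ⁻¹' (FF n m) := by
    ext x
    simp [CC]
  rw [this]
  exact isClosed_iInter fun i => (FF_closed n m).preimage (continuous_apply i)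

theorem CC_anti : Antitone fun n => CC n 0 :=
  antitone_nat_of_succ_le fun n _ hx i => FF_anti n 0 (hx i)

theorem norm_sub_oc_of_mem {n m : ℕ} {x : E} (hx : x ∈ CC (n + 1) m) : ‖x - oc x‖ ≤ rh m := by
  have h0 := rh_lower m
  have h1 := CC_norm (mem_CC_succ.1 hx)
  rw [norm_smul, norm_inv, Real.norm_of_nonneg (by linarith), inv_mul_le_iff₀ (by linarith),
    mul_one] at h1
  exact h1

theorem fk_eq_of_notMem (n : ℕ) : ∀ m (x : E), x ∉ CC n m → ∀ n', n ≤ n' →
    fk n' m x = fk n m x := by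
  induction n with
  | zero =>
    intro m x hx n' _
    have h1 : 1 ≤ ‖x‖ := by
      by_contra hc
      push Not at hc
      exact hx fun i => abs_le.1 ((norm_le_pi_norm x i).trans hc.le)
    rw [(fk_good n' m).ia x h1]
    rfl
  | succ n ih =>
    intro m x hx n' hn'
    obtain ⟨n', rfl⟩ : ∃ k, n' = k + 1 := ⟨n' - 1, by omega⟩
    rw [fk_succ, fk_succ]
    congr 2
    rcases le_total (rh m) ‖x - oc x‖ with h | h
    · have h1 := kk_big m h
      rw [(fk_good n' (m + 1)).ia _ h1, (fk_good n (m + 1)).ia _ h1]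
    · rw [kk_eq' m h]
      refine ih (m + 1) _ (fun hc => hx (mem_CC_succ.2 hc)) n' (by omega)

theorem boxes (n : ℕ) : ∀ m, ∃ T : Finset E, T.card ≤ 32 ^ n ∧ ∀ n', n ≤ n' → ∀ x ∈ CC n m,
    ∃ y ∈ T, dist (fk n' m x) y ≤ (1 / 8) ^ n := by
  classical
  induction n with
  | zero =>
    intro m
    refine ⟨{0}, by simp, fun n' _ x hx => ⟨0, by simp, ?_⟩⟩
    rw [dist_zero_right, pow_zero]
    exact (fk_good n' m).le (CC_norm hx)
  | succ n ih =>
    intro m
    obtain ⟨T, hT, h⟩ := ih (m + 1)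
    refine ⟨Finset.image₂ (fun (σ : Fin 5 → Bool) (y : E) => vv σ + (1 / 8 : ℝ) • y)
      Finset.univ T, ?_, ?_⟩
    · calc _ ≤ (Finset.univ : Finset (Fin 5 → Bool)).card * T.card := Finset.card_image₂_le _ _ _
        _ = 32 * T.card := by simp
        _ ≤ 32 * 32 ^ n := by gcongr
        _ = 32 ^ (n + 1) := by ring
    · intro n' hn' x hx
      obtain ⟨n', rfl⟩ : ∃ k, n' = k + 1 := ⟨n' - 1, by omega⟩
      obtain ⟨y, hy, hxy⟩ := h n' (by omega) _ (mem_CC_succ.1 hx)
      refine ⟨oc x + (1 / 8 : ℝ) • y, ?_, ?_⟩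
      · rw [Finset.mem_image₂]
        exact ⟨_, Finset.mem_univ _, y, hy, by rw [oc_eq_vv]⟩
      · rw [fk_succ, dist_add_left, dist_smul₀, kk_eq' m (norm_sub_oc_of_mem hx),
          Real.norm_of_nonneg (by norm_num)]
        calc _ ≤ (1 / 8 : ℝ) * (1 / 8) ^ n := by gcongr
          _ = (1 / 8) ^ (n + 1) := by ring

theorem Sel.locLip {f : E → E} (hs : Sel f) (hc : Continuous f) {g : E → E} {x : E} {r : ℝ}
    (h : ∀ y ∈ ball x r, g y = f y) : ∃ K : ℝ≥0, LipschitzOnWith K g (ball x r) := by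
  obtain ⟨K, hK⟩ := hs.lipschitz hc
  refine ⟨K, fun y hy z hz => ?_⟩
  rw [h y hy, h z hz]
  exact hK y z

theorem b1 : B1Statement := by
  obtain ⟨κ, h1, h2⟩ := exists_limit (fun n => fk n 0) (fun n => gk n 0)
    (fun n => (fk_good n 0).ca) (fun n => (fk_good n 0).cb) (fun n => (fk_good n 0).ba)
    (fun n => (fk_good n 0).ab) (fun n => fk_dist n 0) (fun n => gk_dist n 0)
  set C : Set E := ⋂ n, CC n 0 with hC
  have hCcl : IsClosed C := isClosed_iInter fun n => CC_closed n 0
  have hCb : C ⊆ closedBall 0 1 := fun x hx => by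
    rw [mem_closedBall_zero_iff]
    exact CC_norm (mem_iInter.1 hx 0)
  -- off the Cantor set the map is locally one of the approximations
  have hloc : ∀ n, ∀ x ∉ CC n 0, κ x = fk n 0 x := by
    intro n x hx
    refine tendsto_nhds_unique (h1 x) (tendsto_const_nhds.congr' ?_)
    filter_upwards [eventually_ge_atTop n] with n' hn'
    exact (fk_eq_of_notMem n 0 x hx n' hn').symm
  have hoff : ∀ x ∉ C, ∃ n, ∃ r > 0, ∀ y ∈ ball x r, κ y = fk n 0 y := by
    intro x hx
    rw [hC, mem_iInter, not_forall] at hx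
    obtain ⟨n, hn⟩ := hx
    obtain ⟨r, hr, hb⟩ := Metric.isOpen_iff.1 (CC_closed n 0).isOpen_compl x hn
    exact ⟨n, r, hr, fun y hy => hloc n y (hb hy)⟩
  refine ⟨C, κ, ?_, ?_, hCb, fun x hx => ?_, fun x hx => ?_, fun y hy => ?_, fun x hx => ?_, ?_⟩
  · exact (isCompact_closedBall 0 1).of_isClosed_subset hCcl hCb
  · have e : C = Set.pi univ fun _ : Fin 5 => FI := by
      ext x
      simp only [hC, CC, FI, mem_iInter, mem_ofPred_eq, Set.mem_pi, mem_univ, true_imp_iff]
      exact ⟨fun h i n => h n i, fun h n i => h i n⟩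
    rw [e, volume_pi_pi]
    have := FI_volume
    refine lt_of_lt_of_le one_pos ?_
    rw [Finset.prod_const]
    exact one_le_pow₀ this
  · exact tendsto_nhds_unique (h1 x) (tendsto_const_nhds.congr fun n =>
      ((fk_good n 0).ia x hx).symm)
  · obtain ⟨n, r, hr, h⟩ := hoff x hx
    exact ⟨r, hr, (fk_good n 0).sa.locLip (fk_good n 0).ca h⟩
  · have hx : κ.symm y ∉ C := fun hc => hy ⟨_, hc, κ.apply_symm_apply y⟩
    rw [hC, mem_iInter, not_forall] at hx
    obtain ⟨n, hn⟩ := hx
    have ho : IsOpen (κ.symm ⁻¹' (CC n 0)ᶜ) := (CC_closed n 0).isOpen_compl.preimage κ.symm.continuous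
    obtain ⟨r, hr, hb⟩ := Metric.isOpen_iff.1 ho y hn
    refine ⟨r, hr, (fk_good n 0).sb.locLip (fk_good n 0).cb fun z hz => ?_⟩
    have h3 := hloc n _ (hb hz)
    rw [κ.apply_symm_apply] at h3
    conv_rhs => rw [h3]
    rw [(fk_good n 0).ba]
  · obtain ⟨n, r, hr, h⟩ := hoff x hx
    obtain ⟨A, hA, hA'⟩ := (fk_good n 0).sa
    exact ⟨r, hr, A, hA, fun y hy => by
      rw [h y hy]
      exact hA' y⟩
  · refine ⟨1, fun m => ?_⟩
    obtain ⟨T, hT, h⟩ := boxes m 0
    refine ⟨T, ?_, ?_⟩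
    · rw [one_mul]
      exact_mod_cast hT
    · rintro _ ⟨x, hx, rfl⟩
      rw [one_mul]
      have hcl : IsClosed (⋃ y ∈ T, closedBall y ((1 / 8 : ℝ) ^ m)) :=
        T.finite_toSet.isClosed_biUnion fun y _ => isClosed_closedBall
      refine hcl.mem_of_tendsto (h1 x) ?_
      filter_upwards [eventually_ge_atTop m] with n' hn'
      obtain ⟨y, hy, hxy⟩ := h n' hn' x (mem_iInter.1 hx m)
      exact mem_iUnion₂.2 ⟨y, hy, hxy⟩

end Pool.Agent.Helper57Sob
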