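import Pool.Agent.Helper57_Sob.Sel

/-!
The level map: a piecewise affine homeomorphism of `ℝ⁵`, the identity off the cube of half side
`1/2`, equal to `x / (8 ρ)` on the cube of half side `ρ`.
-/

set_option autoImplicit false

open Set Filter Topology Metric
open scoped NNReal

namespace Pool.Agent.Helper57Sob

open Pool.Agent.Helper27Sob

/-- An increasing bijection of the line with its inverse. -/
structure Mono2 (a a' : ℝ → ℝ) : Prop where
  m : Monotone a
  m' : Monotone a'
  l : ∀ t, a' (a t) = t
  r : ∀ s, a (a' s) = s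

theorem Mono2.id : Mono2 (fun t => t) (fun t => t) :=
  ⟨fun _ _ h => h, fun _ _ h => h, fun _ => rfl, fun _ => rfl⟩

theorem Mono2.symm {a a' : ℝ → ℝ} (h : Mono2 a a') : Mono2 a' a := ⟨h.m', h.m, h.r, h.l⟩

theorem Mono2.comp {a a' b b' : ℝ → ℝ} (ha : Mono2 a a') (hb : Mono2 b b') :
    Mono2 (fun t => a (b t)) (fun s => b' (a' s)) :=
  ⟨fun _ _ h => ha.m (hb.m h), fun _ _ h => hb.m' (ha.m' h), fun t => by simp only [ha.l, hb.l],
    fun t => by simp only [ha.r, hb.r]⟩

theorem Mono2.min {a a' b b' : ℝ → ℝ} (ha : Mono2 a a') (hb : Mono2 b b') :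
    Mono2 (fun t => min (a t) (b t)) (fun s => max (a' s) (b' s)) := by
  refine ⟨fun _ _ h => min_le_min (ha.m h) (hb.m h), fun _ _ h => max_le_max (ha.m' h) (hb.m' h),
    fun t => ?_, fun s => ?_⟩
  · rcases le_total (a t) (b t) with h | h
    · have h1 := hb.m' h
      rw [hb.l] at h1
      simp only [min_eq_left h, ha.l, max_eq_left h1]
    · have h1 := ha.m' h
      rw [ha.l] at h1
      simp only [min_eq_right h, hb.l, max_eq_right h1]
  · rcases le_total (a' s) (b' s) with h | h
    · have h1 := ha.m h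
      rw [ha.r] at h1
      simp only [max_eq_right h, hb.r, min_eq_right h1]
    · have h1 := hb.m h
      rw [hb.r] at h1
      simp only [max_eq_left h, ha.r, min_eq_left h1]

theorem Mono2.max {a a' b b' : ℝ → ℝ} (ha : Mono2 a a') (hb : Mono2 b b') :
    Mono2 (fun t => max (a t) (b t)) (fun s => Min.min (a' s) (b' s)) :=
  (ha.symm.min hb.symm).symm

theorem Mono2.affine {α : ℝ} (hα : 0 < α) (β : ℝ) :
    Mono2 (fun t => α * t + β) (fun s => α⁻¹ * (s - β)) := by
  refine ⟨fun _ _ h => by gcongr, fun _ _ h => by gcongr, fun t => ?_, fun s => ?_⟩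
  · field_simp
    ring
  · field_simp
    ring

theorem Mono2.add (c : ℝ) : Mono2 (fun t => t + c) (fun s => s - c) :=
  ⟨fun _ _ h => by gcongr, fun _ _ h => by gcongr, fun t => by ring, fun s => by ring⟩

theorem Mono2.sub (c : ℝ) : Mono2 (fun t => t - c) (fun s => s + c) :=
  ⟨fun _ _ h => by gcongr, fun _ _ h => by gcongr, fun t => by ring, fun s => by ring⟩

theorem Mono2.clamp {g g' : ℝ → ℝ} (hg : Mono2 g g') (c : ℝ) :
    Mono2 (fun t => Max.max (t - c) (Min.min (t + c) (g t)))
      (fun s => Min.min (s + c) (Max.max (s - c) (g' s))) :=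
  (Mono2.sub c).max ((Mono2.add c).min hg)

/-- The one dimensional level map. -/
theorem exists_g {ρ : ℝ} (h1 : 3 / 8 ≤ ρ) (h2 : ρ < 1 / 2) : ∃ g g' : ℝ → ℝ, Mono2 g g' ∧
    Continuous g ∧ Continuous g' ∧ Sel g ∧ Sel g' ∧ (∀ t, 1 / 2 ≤ |t| → g t = t) ∧
    ∀ t, |t| ≤ ρ → g t = (8 * ρ)⁻¹ * t := by
  set s : ℝ := (3 / 8) / (1 / 2 - ρ) with hs
  have hd : 0 < 1 / 2 - ρ := by linarith
  have hs1 : 1 < s := by
    rw [hs, lt_div_iff₀ hd]
    linarith
  have hs0 : 0 < s := by linarith
  have hsd : s * (1 / 2 - ρ) = 3 / 8 := by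
    rw [hs]
    exact div_mul_cancel₀ _ hd.ne'
  set β : ℝ := (s - 1) / 2 with hβ
  set b : ℝ := (8 * ρ)⁻¹ with hb
  have hb0 : 0 < b := by positivity
  have hbρ : b * ρ = 1 / 8 := by
    rw [hb]
    field_simp
  have hb1 : b ≤ 1 / 3 := by
    rw [hb]
    rw [inv_le_comm₀ (by positivity) (by positivity)]
    linarith
  -- the building blocks
  have q1 := Mono2.id.min ((Mono2.affine hb0 0).max (Mono2.affine hs0 (-β)))
  have q2 := Mono2.id.max ((Mono2.affine hb0 0).min (Mono2.affine hs0 β))
  have key := q1.comp q2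
  refine ⟨_, _, key, by fun_prop, by fun_prop, ?_, ?_, ?_, ?_⟩
  · refine Sel.comp (f := fun t : ℝ => min t (max (b * t + 0) (s * t + -β))) ?_ ?_
    · exact Sel.id.min (((Sel.id.mul b).add (Sel.const _)).max ((Sel.id.mul s).add (Sel.const _)))
    · exact Sel.id.max (((Sel.id.mul b).add (Sel.const _)).min ((Sel.id.mul s).add (Sel.const _)))
  · refine Sel.comp (f := fun t : ℝ => min t (max (b⁻¹ * (t - 0)) (s⁻¹ * (t - β))))
      (g := fun t : ℝ => max t (min (b⁻¹ * (t - 0)) (s⁻¹ * (t - -β)))) ?_ ?_
    · exact Sel.id.min (((Sel.id.sub (Sel.const _)).mul _).max ((Sel.id.sub (Sel.const _)).mul _))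
    · exact Sel.id.max (((Sel.id.sub (Sel.const _)).mul _).min ((Sel.id.sub (Sel.const _)).mul _))
  · intro t ht
    rcases le_total 0 t with h0 | h0
    · rw [abs_of_nonneg h0] at ht
      have e1 : b * t + 0 ≤ t := by nlinarith
      have e2 : max t (min (b * t + 0) (s * t + β)) = t :=
        max_eq_left ((min_le_left _ _).trans e1)
      simp only [e2]
      have e3 : t ≤ s * t + -β := by
        rw [hβ]
        nlinarith
      exact min_eq_left (e3.trans (le_max_right _ _))
    · rw [abs_of_nonpos h0] at ht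
      have e3 : s * t + β ≤ t := by
        rw [hβ]
        nlinarith
      have e2 : max t (min (b * t + 0) (s * t + β)) = t :=
        max_eq_left ((min_le_right _ _).trans e3)
      simp only [e2]
      have e1 : t ≤ b * t + 0 := by nlinarith
      exact min_eq_left (e1.trans (le_max_left _ _))
  · intro t ht
    have hρ := abs_le.1 ht
    rcases le_total 0 t with h0 | h0
    · have e1 : b * t + 0 ≤ t := by nlinarith
      have e2 : max t (min (b * t + 0) (s * t + β)) = t :=
        max_eq_left ((min_le_left _ _).trans e1)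
      simp only [e2]
      have e4 : s * t + -β ≤ b * t + 0 := by
        have : 0 ≤ (s - b) * (ρ - t) := mul_nonneg (by linarith) (by linarith)
        have h5 : s * ρ = 1 / 2 * s - 3 / 8 := by linarith
        rw [hβ]
        nlinarith
      rw [max_eq_left e4, min_eq_right e1, add_zero]
    · have e1 : t ≤ b * t + 0 := by nlinarith
      have e4 : b * t + 0 ≤ s * t + β := by
        have : 0 ≤ (s - b) * (ρ + t) := mul_nonneg (by linarith) (by linarith)
        have h5 : s * ρ = 1 / 2 * s - 3 / 8 := by linarith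
        rw [hβ]
        nlinarith
      have e2 : max t (min (b * t + 0) (s * t + β)) = b * t := by
        rw [min_eq_left e4, max_eq_right e1, add_zero]
      simp only [e2]
      refine min_eq_left ?_
      refine le_trans ?_ (le_max_left _ _)
      nlinarith [mul_nonneg_of_nonpos_of_nonpos h0 h0]

/-- A piecewise affine homeomorphism `a` with inverse `b`, the identity off the ball of
radius `r`. -/
structure Good (r : ℝ) (a b : E → E) : Prop where
  ca : Continuous a
  cb : Continuous b
  ba : ∀ x, b (a x) = x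
  ab : ∀ x, a (b x) = x
  ia : ∀ x, r ≤ ‖x‖ → a x = x
  sa : Sel a
  sb : Sel b

theorem Good.ib {r : ℝ} {a b : E → E} (h : Good r a b) (x : E) (hx : r ≤ ‖x‖) : b x = x := by
  conv_lhs => rw [← h.ia x hx]
  exact h.ba x

theorem Good.symm {r : ℝ} {a b : E → E} (h : Good r a b) : Good r b a :=
  ⟨h.cb, h.ca, h.ab, h.ba, h.ib, h.sb, h.sa⟩

theorem Good.refl (r : ℝ) : Good r (fun x => x) (fun x => x) :=
  ⟨continuous_id, continuous_id, fun _ => rfl, fun _ => rfl, fun _ _ => rfl, Sel.id, Sel.id⟩

theorem Good.mono {r r' : ℝ} {a b : E → E} (h : Good r a b) (hr : r ≤ r') : Good r' a b :=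
  ⟨h.ca, h.cb, h.ba, h.ab, fun x hx => h.ia x (hr.trans hx), h.sa, h.sb⟩

theorem Good.comp {r : ℝ} {a b a' b' : E → E} (h : Good r a b) (h' : Good r a' b') :
    Good r (fun x => a' (a x)) (fun x => b (b' x)) :=
  ⟨h'.ca.comp h.ca, h.cb.comp h'.cb, fun x => by simp only [h'.ba, h.ba],
    fun x => by simp only [h.ab, h'.ab], fun x hx => by simp only [h.ia x hx, h'.ia x hx],
    h'.sa.comp h.sa, h.sb.comp h'.sb⟩

/-- the map preserves the open ball -/
theorem Good.lt {r : ℝ} {a b : E → E} (h : Good r a b) {x : E} (hx : ‖x‖ < r) : ‖a x‖ < r := by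
  by_contra hc
  push Not at hc
  have h1 := h.ib _ hc
  rw [h.ba] at h1
  rw [← h1] at hc
  exact absurd hx (not_lt.2 hc)

theorem Good.le {r : ℝ} {a b : E → E} (h : Good r a b) {x : E} (hx : ‖x‖ ≤ r) : ‖a x‖ ≤ r := by
  rcases lt_or_eq_of_le hx with hx | hx
  · exact (h.lt hx).le
  · rw [h.ia x hx.ge]
    exact hx.le

theorem Good.scale {a b : E → E} (h : Good 1 a b) :
    Good (1 / 8) (fun x => (1 / 8 : ℝ) • a ((8 : ℝ) • x)) (fun x => (1 / 8 : ℝ) • b ((8 : ℝ) • x)) := by
  have h8 : ∀ x : E, (8 : ℝ) • (1 / 8 : ℝ) • x = x := fun x => by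
    rw [smul_smul]
    norm_num
  have h8' : ∀ x : E, (1 / 8 : ℝ) • (8 : ℝ) • x = x := fun x => by
    rw [smul_smul]
    norm_num
  refine ⟨?_, ?_, fun x => ?_, fun x => ?_, fun x hx => ?_, ?_, ?_⟩
  · have := h.ca
    fun_prop
  · have := h.cb
    fun_prop
  · simp only [h8, h.ba, h8']
  · simp only [h8, h.ab, h8']
  · have : 1 ≤ ‖(8 : ℝ) • x‖ := by
      rw [norm_smul]
      norm_num
      linarith
    simp only [h.ia _ this, h8']
  · exact (h.sa.comp (Sel.id.smul 8)).smul _
  · exact (h.sb.comp (Sel.id.smul 8)).smul _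

theorem continuous_update_zero (i : Fin 5) : Continuous fun u : E => Function.update u i 0 :=
  continuous_id.update i continuous_const

theorem sel_update {f : E → ℝ} (hf : Sel f) (i : Fin 5) :
    Sel (fun u : E => Function.update u i (f u)) := by
  refine Sel.pi fun j => ?_
  by_cases h : j = i
  · subst h
    simpa using hf
  · simpa [Function.update_of_ne h] using Sel.eval j

/-- the width of the clamp -/
noncomputable def cc (K : ℝ) (i : Fin 5) (u : E) : ℝ :=
  K * max 0 (1 / 2 - ‖Function.update u i 0‖)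

theorem cc_update (K : ℝ) (i : Fin 5) (u : E) (t : ℝ) : cc K i (Function.update u i t) = cc K i u := by
  unfold cc
  rw [Function.update_idem]

theorem continuous_cc (K : ℝ) (i : Fin 5) : Continuous (cc K i) := by
  unfold cc
  have := continuous_update_zero i
  fun_prop

theorem sel_cc (K : ℝ) (i : Fin 5) : Sel (cc K i) :=
  ((Sel.const (0 : ℝ)).max ((Sel.const (1 / 2 : ℝ)).sub
    (Sel.norm.comp (sel_update (Sel.const (0 : ℝ)) i)))).mul K

theorem good_coord {g g' : ℝ → ℝ} (hg : Mono2 g g') (cg : Continuous g) (cg' : Continuous g')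
    (sg : Sel g) (sg' : Sel g') (hid : ∀ t, 1 / 2 ≤ |t| → g t = t) {K : ℝ} (hK : 0 ≤ K)
    (i : Fin 5) :
    Good (1 / 2)
      (fun u => Function.update u i (max (u i - cc K i u) (min (u i + cc K i u) (g (u i)))))
      (fun u => Function.update u i (min (u i + cc K i u) (max (u i - cc K i u) (g' (u i))))) := by
  have hc := continuous_cc K i
  have hcs := sel_cc K i
  have h0 : ∀ u, 0 ≤ cc K i u := fun u => mul_nonneg hK (le_max_left _ _)
  refine ⟨?_, ?_, fun u => ?_, fun u => ?_, fun u hu => ?_, ?_, ?_⟩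
  · refine continuous_id.update i ?_
    fun_prop
  · refine continuous_id.update i ?_
    fun_prop
  · simp only [cc_update, Function.update_self, Function.update_idem]
    rw [(hg.clamp (cc K i u)).l (u i), Function.update_eq_self]
  · simp only [cc_update, Function.update_self, Function.update_idem]
    rw [(hg.clamp (cc K i u)).r (u i), Function.update_eq_self]
  · have : max (u i - cc K i u) (min (u i + cc K i u) (g (u i))) = u i := by
      obtain ⟨j, hj⟩ := exists_norm_eq u
      rw [hj] at hu
      by_cases hji : j = i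
      · subst hji
        rw [hid _ hu, min_eq_right (by linarith [h0 u]), max_eq_right (by linarith [h0 u])]
      · have h1 : 1 / 2 ≤ ‖Function.update u i 0‖ := by
          have h2 := norm_le_pi_norm (Function.update u i 0) j
          rw [Function.update_of_ne hji] at h2
          exact hu.trans h2
        have h3 : cc K i u = 0 := by
          unfold cc
          rw [max_eq_left (by linarith), mul_zero]
        rw [h3, sub_zero, add_zero]
        exact max_eq_left (min_le_left _ _)
    rw [this, Function.update_eq_self]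
  · exact sel_update (((Sel.eval i).sub hcs).max (((Sel.eval i).add hcs).min
      (sg.comp (Sel.eval i)))) i
  · exact sel_update (((Sel.eval i).add hcs).min (((Sel.eval i).sub hcs).max
      (sg'.comp (Sel.eval i)))) i

theorem exists_level {ρ : ℝ} (h1 : 3 / 8 ≤ ρ) (h2 : ρ < 1 / 2) : ∃ a b : E → E,
    Good (1 / 2) a b ∧ ∀ u, ‖u‖ ≤ ρ → a u = (8 * ρ)⁻¹ • u := by
  obtain ⟨g, g', hg, cg, cg', sg, sg', hid, hlin⟩ := exists_g h1 h2
  set K : ℝ := (ρ - 1 / 8) / (1 / 2 - ρ) with hKdef
  have hd : 0 < 1 / 2 - ρ := by linarith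
  have hK0 : 0 ≤ K := by
    rw [hKdef]
    apply div_nonneg <;> linarith
  have hKρ : K * (1 / 2 - ρ) = ρ - 1 / 8 := by
    rw [hKdef]
    exact div_mul_cancel₀ _ hd.ne'
  set b : ℝ := (8 * ρ)⁻¹ with hb
  have hb0 : 0 < b := by positivity
  have hbρ : b * ρ = 1 / 8 := by
    rw [hb]
    field_simp
  have hb1 : b ≤ 1 / 3 := by
    rw [hb]
    rw [inv_le_comm₀ (by positivity) (by positivity)]
    linarith
  have main : ∀ l : List (Fin 5), l.Nodup → ∃ a a' : E → E, Good (1 / 2) a a' ∧
      ∀ u, ‖u‖ ≤ ρ → a u = fun j => if j ∈ l then b * u j else u j := by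
    intro l
    induction l with
    | nil =>
      intro _
      exact ⟨_, _, Good.refl _, fun u _ => by simp⟩
    | cons i l ih =>
      intro hl
      rw [List.nodup_cons] at hl
      obtain ⟨a, a', ha, ha'⟩ := ih hl.2
      refine ⟨_, _, ha.comp (good_coord hg cg cg' sg sg' hid hK0 i), fun u hu => ?_⟩
      simp only [ha' u hu]
      set w : E := fun j => if j ∈ l then b * u j else u j with hw
      have hwu : ∀ j, |w j| ≤ |u j| := by
        intro j
        simp only [hw]
        split_ifs
        · rw [abs_mul, abs_of_pos hb0]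
          nlinarith [abs_nonneg (u j)]
        · exact le_rfl
      have hui : |u i| ≤ ρ := (norm_le_pi_norm u i).trans hu
      have hwi : w i = u i := by simp [hw, hl.1]
      have hcw : ρ - 1 / 8 ≤ cc K i w := by
        have h3 : ‖Function.update w i 0‖ ≤ ρ := by
          refine (pi_norm_le_iff_of_nonneg (by linarith)).2 fun j => ?_
          by_cases hji : j = i
          · subst hji
            rw [Function.update_self, norm_zero]
            linarith
          · rw [Function.update_of_ne hji]
            exact (hwu j).trans ((norm_le_pi_norm u j).trans hu)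
        unfold cc
        calc ρ - 1 / 8 = K * (1 / 2 - ρ) := hKρ.symm
          _ ≤ K * max 0 (1 / 2 - ‖Function.update w i 0‖) := by
              gcongr
              exact le_max_of_le_right (by linarith)
      have e : max (w i - cc K i w) (min (w i + cc K i w) (g (w i))) = b * u i := by
        rw [hwi, hlin _ hui]
        have h4 := abs_le.1 hui
        have h5 : |u i| * (1 - b) ≤ ρ * (1 - b) := by
          have : 0 ≤ 1 - b := by linarith
          gcongr
        have h6 : |u i - b * u i| ≤ ρ - 1 / 8 := by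
          have : u i - b * u i = u i * (1 - b) := by ring
          rw [this, abs_mul, abs_of_nonneg (by linarith : 0 ≤ 1 - b)]
          linarith
        have h7 := abs_le.1 h6
        rw [min_eq_right (by linarith), max_eq_right (by linarith)]
      rw [e]
      funext j
      by_cases hji : j = i
      · subst hji
        simp
      · rw [Function.update_of_ne hji]
        simp [hw, hji]
  obtain ⟨a, a', ha, ha'⟩ := main (List.finRange 5) (List.nodup_finRange 5)
  refine ⟨a, a', ha, fun u hu => ?_⟩
  rw [ha' u hu]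
  funext j
  simp

end Pool.Agent.Helper57Sob
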