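import Pool.Agent.Helper57_Sob.Level

/-!
The octant construction and the recursion.
-/

set_option autoImplicit false

open Set Filter Topology Metric
open scoped NNReal

namespace Pool.Agent.Helper57Sob

open Pool.Agent.Helper27Sob

/-- half the sign -/
noncomputable def sg (t : ℝ) : ℝ := if 0 ≤ t then 1 / 2 else -1 / 2

/-- the centre of the octant -/
noncomputable def oc (x : E) : E := fun i => sg (x i)

/-- the centres of the octants -/
noncomputable def vv (σ : Fin 5 → Bool) : E := fun i => if σ i then 1 / 2 else -1 / 2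

theorem abs_sg (t : ℝ) : |sg t| = 1 / 2 := by
  unfold sg
  split_ifs
  · norm_num
  · rw [abs_of_neg] <;> norm_num

theorem oc_eq_vv (x : E) : oc x = vv fun i => decide (0 ≤ x i) := by
  funext i
  simp [oc, vv, sg]

theorem half_le_of_ne {x : E} {σ : Fin 5 → Bool} (h : vv σ ≠ oc x) : 1 / 2 ≤ ‖x - vv σ‖ := by
  have : ∃ i, vv σ i ≠ oc x i := by
    by_contra hc
    push Not at hc
    exact h (funext hc)
  obtain ⟨i, hi⟩ := this
  refine le_trans ?_ (norm_le_pi_norm (x - vv σ) i)
  rw [Pi.sub_apply, Real.norm_eq_abs]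
  unfold vv at hi ⊢
  unfold oc sg at hi
  split_ifs at hi ⊢ with h1 h2
  · exact absurd rfl hi
  · have : x i - 1 / 2 ≤ -(1 / 2) := by linarith
    rw [abs_of_neg (by linarith)]
    linarith
  · have : x i - (-1 / 2) ≥ 1 / 2 := by linarith
    rw [abs_of_nonneg (by linarith)]
    linarith
  · exact absurd rfl hi

theorem half_le_of_one_le {x : E} (h : 1 ≤ ‖x‖) : 1 / 2 ≤ ‖x - oc x‖ := by
  obtain ⟨j, hj⟩ := exists_norm_eq x
  rw [hj] at h
  refine le_trans ?_ (norm_le_pi_norm (x - oc x) j)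
  rw [Pi.sub_apply, Real.norm_eq_abs]
  have h1 : |x j| ≤ |x j - oc x j| + |oc x j| := by
    calc |x j| = |(x j - oc x j) + oc x j| := by rw [sub_add_cancel]
      _ ≤ _ := abs_add_le _ _
  have h2 : |oc x j| = 1 / 2 := abs_sg _
  linarith

/-- the octant construction -/
noncomputable def oct (a : E → E) (x : E) : E := oc x + a (x - oc x)

theorem oct_eq_sum {a : E → E} (ha : ∀ u, 1 / 2 ≤ ‖u‖ → a u = u) (x : E) :
    oct a x = x + ∑ σ : Fin 5 → Bool, (a (x - vv σ) - (x - vv σ)) := by
  rw [Finset.sum_eq_single (fun i => decide (0 ≤ x i)), ← oc_eq_vv]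
  · unfold oct
    abel
  · intro σ _ hσ
    have : vv σ ≠ oc x := by
      intro h
      apply hσ
      funext i
      have h1 := congrFun h i
      unfold vv oc sg at h1
      split_ifs at h1 with h2 h3
      · simp [h2, h3]
      · norm_num at h1
      · norm_num at h1
      · simp [h2]
        by_contra hc
        push Not at hc
        contradiction
    rw [ha _ (half_le_of_ne this), sub_self]
  · intro h
    exact absurd (Finset.mem_univ _) h

theorem oc_oct {a b : E → E} (h : Good (1 / 2) a b) (x : E) : oc (oct a x) = oc x := by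
  rcases le_or_gt (1 / 2) ‖x - oc x‖ with h1 | h1
  · unfold oct
    rw [h.ia _ h1, add_sub_cancel]
  · have h2 := h.lt h1
    funext i
    have h3 : |a (x - oc x) i| < 1 / 2 := lt_of_le_of_lt (norm_le_pi_norm (a (x - oc x)) i) h2
    have h4 := abs_lt.1 h3
    change sg ((oct a x) i) = sg (x i)
    have h5 : (oct a x) i = sg (x i) + a (x - oc x) i := rfl
    rw [h5]
    unfold sg
    split_ifs with h6 h7 h8
    · rfl
    · linarith
    · linarith
    · rfl

theorem Good.oct {a b : E → E} (h : Good (1 / 2) a b) : Good 1 (oct a) (oct b) := by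
  have hcont : ∀ {a b : E → E}, Good (1 / 2) a b → Continuous (Helper57Sob.oct a) := by
    intro a b h
    have : Helper57Sob.oct a = fun x => x + ∑ σ : Fin 5 → Bool, (a (x - vv σ) - (x - vv σ)) :=
      funext fun x => oct_eq_sum h.ia x
    rw [this]
    have := h.ca
    fun_prop
  have hinv : ∀ {a b : E → E}, Good (1 / 2) a b → ∀ x,
      Helper57Sob.oct b (Helper57Sob.oct a x) = x := by
    intro a b h x
    have h1 := oc_oct h x
    unfold Helper57Sob.oct at h1 ⊢
    rw [h1, add_sub_cancel_left, h.ba, add_sub_cancel]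
  have hsel : ∀ {a b : E → E}, Good (1 / 2) a b → Sel (Helper57Sob.oct a) := by
    intro a b h
    refine Sel.piecewise (F := fun (σ : Fin 5 → Bool) x => vv σ + a (x - vv σ)) (fun σ => ?_)
      fun x => ⟨fun i => decide (0 ≤ x i), ?_⟩
    · exact (Sel.const _).add (h.sa.comp (Sel.id.sub (Sel.const _)))
    · rw [← oc_eq_vv]
      rfl
  refine ⟨hcont h, hcont h.symm, hinv h, hinv h.symm, fun x hx => ?_, hsel h, hsel h.symm⟩
  unfold Helper57Sob.oct
  rw [h.ia _ (half_le_of_one_le hx), add_sub_cancel]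

/-- the ratios -/
noncomputable def rh (m : ℕ) : ℝ := (1 - (1 / 2) ^ (m + 2)) / 2

theorem rh_lower (m : ℕ) : 3 / 8 ≤ rh m := by
  have : (1 / 2 : ℝ) ^ (m + 2) ≤ (1 / 2) ^ 2 :=
    pow_le_pow_of_le_one (by norm_num) (by norm_num) (by omega)
  unfold rh
  linarith

theorem rh_upper (m : ℕ) : rh m < 1 / 2 := by
  have : (0 : ℝ) < (1 / 2) ^ (m + 2) := by positivity
  unfold rh
  linarith

/-- the level maps -/
noncomputable def kk (m : ℕ) : E → E := (exists_level (rh_lower m) (rh_upper m)).choose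

/-- their inverses -/
noncomputable def kk' (m : ℕ) : E → E :=
  (exists_level (rh_lower m) (rh_upper m)).choose_spec.choose

theorem kk_good (m : ℕ) : Good (1 / 2) (kk m) (kk' m) :=
  (exists_level (rh_lower m) (rh_upper m)).choose_spec.choose_spec.1

theorem kk_eq (m : ℕ) {u : E} (hu : ‖u‖ ≤ rh m) : kk m u = (8 * rh m)⁻¹ • u :=
  (exists_level (rh_lower m) (rh_upper m)).choose_spec.choose_spec.2 u hu

theorem kk_eq' (m : ℕ) {u : E} (hu : ‖u‖ ≤ rh m) : (8 : ℝ) • kk m u = (rh m)⁻¹ • u := by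
  have := rh_lower m
  rw [kk_eq m hu, smul_smul]
  congr 1
  field_simp

theorem kk'_eq (m : ℕ) {w : E} (hw : ‖w‖ ≤ 1) : kk' m ((1 / 8 : ℝ) • w) = rh m • w := by
  have h0 := rh_lower m
  have h1 : ‖rh m • w‖ ≤ rh m := by
    rw [norm_smul, Real.norm_of_nonneg (by linarith)]
    nlinarith
  have h2 : (1 / 8 : ℝ) • w = kk m (rh m • w) := by
    rw [kk_eq m h1, smul_smul]
    congr 1
    field_simp
  rw [h2, (kk_good m).ba]

theorem kk_big (m : ℕ) {u : E} (hu : rh m ≤ ‖u‖) : 1 ≤ ‖(8 : ℝ) • kk m u‖ := by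
  have h0 := rh_lower m
  by_contra hc
  push Not at hc
  have h1 : kk m u = (1 / 8 : ℝ) • ((8 : ℝ) • kk m u) := by
    rw [smul_smul]
    norm_num
  have h2 := kk'_eq m hc.le
  rw [← h1, (kk_good m).ba] at h2
  have h3 : ‖u‖ = rh m * ‖(8 : ℝ) • kk m u‖ := by
    conv_lhs => rw [h2]
    rw [norm_smul, Real.norm_of_nonneg (by linarith)]
  nlinarith

/-- the approximations -/
noncomputable def fk : ℕ → ℕ → E → E
  | 0, _ => fun x => x
  | n + 1, m => fun x => oc x + (1 / 8 : ℝ) • fk n (m + 1) ((8 : ℝ) • kk m (x - oc x))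

/-- the approximations of the inverse -/
noncomputable def gk : ℕ → ℕ → E → E
  | 0, _ => fun x => x
  | n + 1, m => fun y => oc y + kk' m ((1 / 8 : ℝ) • gk n (m + 1) ((8 : ℝ) • (y - oc y)))

theorem fk_succ (n m : ℕ) (x : E) :
    fk (n + 1) m x = oc x + (1 / 8 : ℝ) • fk n (m + 1) ((8 : ℝ) • kk m (x - oc x)) := rfl

theorem gk_succ (n m : ℕ) (y : E) :
    gk (n + 1) m y = oc y + kk' m ((1 / 8 : ℝ) • gk n (m + 1) ((8 : ℝ) • (y - oc y))) := rfl

theorem fk_good (n : ℕ) : ∀ m, Good 1 (fk n m) (gk n m) := by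
  induction n with
  | zero => exact fun m => Good.refl 1
  | succ n ih =>
    intro m
    have h1 := ((ih (m + 1)).scale).mono (show (1 / 8 : ℝ) ≤ 1 / 2 by norm_num)
    exact ((kk_good m).comp h1).oct

theorem Good.dist_le {a b : E → E} (h : Good 1 a b) (x : E) : dist x (a x) ≤ 2 := by
  rcases le_total 1 ‖x‖ with h1 | h1
  · rw [h.ia x h1, dist_self]
    norm_num
  · rw [dist_eq_norm]
    calc ‖x - a x‖ ≤ ‖x‖ + ‖a x‖ := norm_sub_le _ _
      _ ≤ 1 + 1 := add_le_add h1 (h.le h1)
      _ = 2 := by norm_num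

theorem fk_dist (n : ℕ) : ∀ m x, dist (fk n m x) (fk (n + 1) m x) ≤ 2 * (1 / 2) ^ n := by
  induction n with
  | zero =>
    intro m x
    rw [pow_zero, mul_one]
    exact (fk_good 1 m).dist_le x
  | succ n ih =>
    intro m x
    rw [fk_succ n, fk_succ (n + 1), dist_add_left, dist_smul₀]
    calc _ ≤ ‖(1 / 8 : ℝ)‖ * (2 * (1 / 2) ^ n) := by
          gcongr
          exact ih _ _
      _ ≤ 2 * (1 / 2) ^ (n + 1) := by
          rw [Real.norm_of_nonneg (by norm_num), pow_succ]
          have : (0 : ℝ) < (1 / 2) ^ n := by positivity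
          linarith

theorem gk_dist (n : ℕ) : ∀ m x, dist (gk n m x) (gk (n + 1) m x) ≤ 2 * (1 / 2) ^ n := by
  induction n with
  | zero =>
    intro m x
    rw [pow_zero, mul_one]
    exact (fk_good 1 m).symm.dist_le x
  | succ n ih =>
    intro m y
    rw [gk_succ n, gk_succ (n + 1), dist_add_left]
    rcases le_total 1 ‖(8 : ℝ) • (y - oc y)‖ with h | h
    · rw [(fk_good n (m + 1)).ib _ h, (fk_good (n + 1) (m + 1)).ib _ h, dist_self]
      positivity
    · rw [kk'_eq m ((fk_good n (m + 1)).symm.le h), kk'_eq m ((fk_good (n + 1) (m + 1)).symm.le h),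
        dist_smul₀]
      have h0 := rh_lower m
      have h1 := rh_upper m
      calc _ ≤ ‖rh m‖ * (2 * (1 / 2) ^ n) := by
            gcongr
            exact ih _ _
        _ ≤ 2 * (1 / 2) ^ (n + 1) := by
            rw [Real.norm_of_nonneg (by linarith), pow_succ]
            have : (0 : ℝ) < (1 / 2) ^ n := by positivity
            nlinarith

/-- uniform limits of homeomorphisms and of their inverses -/
theorem exists_limit {X : Type*} [MetricSpace X] [CompleteSpace X] (f g : ℕ → X → X)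
    (cf : ∀ n, Continuous (f n)) (cg : ∀ n, Continuous (g n))
    (gf : ∀ n x, g n (f n x) = x) (fg : ∀ n x, f n (g n x) = x)
    (df : ∀ n x, dist (f n x) (f (n + 1) x) ≤ 2 * (1 / 2) ^ n)
    (dg : ∀ n x, dist (g n x) (g (n + 1) x) ≤ 2 * (1 / 2) ^ n) :
    ∃ κ : X ≃ₜ X, (∀ x, Tendsto (fun n => f n x) atTop (𝓝 (κ x))) ∧
      ∀ x, Tendsto (fun n => g n x) atTop (𝓝 (κ.symm x)) := by
  have aux : ∀ f : ℕ → X → X, (∀ n, Continuous (f n)) →
      (∀ n x, dist (f n x) (f (n + 1) x) ≤ 2 * (1 / 2) ^ n) →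
      ∃ F : X → X, Continuous F ∧ (∀ x, Tendsto (fun n => f n x) atTop (𝓝 (F x))) ∧
        ∀ n x, dist (f n x) (F x) ≤ 4 * (1 / 2) ^ n := by
    intro f cf df
    have h1 : ∀ x, ∃ y, Tendsto (fun n => f n x) atTop (𝓝 y) := fun x =>
      cauchySeq_tendsto_of_complete (cauchySeq_of_le_geometric (1 / 2) 2 (by norm_num)
        fun n => df n x)
    choose F hF using h1
    have h2 : ∀ n x, dist (f n x) (F x) ≤ 4 * (1 / 2) ^ n := by
      intro n x
      have := dist_le_of_le_geometric_of_tendsto (1 / 2) 2 (by norm_num) (fun n => df n x) (hF x) n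
      calc _ ≤ _ := this
        _ = _ := by ring
    have h3 : TendstoUniformly f F atTop := by
      rw [Metric.tendstoUniformly_iff]
      intro ε hε
      have h4 : Tendsto (fun n : ℕ => 4 * (1 / 2 : ℝ) ^ n) atTop (𝓝 (4 * 0)) :=
        (tendsto_pow_atTop_nhds_zero_of_lt_one (by norm_num) (by norm_num)).const_mul 4
      rw [mul_zero] at h4
      filter_upwards [h4.eventually_lt_const hε] with n hn x
      rw [dist_comm]
      exact lt_of_le_of_lt (h2 n x) hn
    exact ⟨F, h3.continuous (Frequently.of_forall cf), hF, h2⟩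
  obtain ⟨F, cF, tF, bF⟩ := aux f cf df
  obtain ⟨G, cG, tG, bG⟩ := aux g cg dg
  have aux2 : ∀ (f g : ℕ → X → X) (F G : X → X), Continuous G →
      (∀ n x, g n (f n x) = x) →
      (∀ x, Tendsto (fun n => f n x) atTop (𝓝 (F x))) →
      (∀ n x, dist (g n x) (G x) ≤ 4 * (1 / 2) ^ n) → ∀ x, G (F x) = x := by
    intro f g F G cG gf tF bG x
    have h1 : Tendsto (fun n => G (f n x)) atTop (𝓝 (G (F x))) := (cG.tendsto _).comp (tF x)
    have h2 : Tendsto (fun n => G (f n x)) atTop (𝓝 x) := by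
      rw [tendsto_iff_dist_tendsto_zero]
      have h4 : Tendsto (fun n : ℕ => 4 * (1 / 2 : ℝ) ^ n) atTop (𝓝 (4 * 0)) :=
        (tendsto_pow_atTop_nhds_zero_of_lt_one (by norm_num) (by norm_num)).const_mul 4
      rw [mul_zero] at h4
      refine squeeze_zero (fun _ => dist_nonneg) (fun n => ?_) h4
      have := bG n (f n x)
      rwa [gf, dist_comm] at this
    exact tendsto_nhds_unique h1 h2
  exact ⟨{ toFun := F
           invFun := G
           left_inv := aux2 f g F G cG gf tF bG
           right_inv := aux2 g f G F cF fg tG bF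
           continuous_toFun := cF
           continuous_invFun := cG }, tF, tG⟩

end Pool.Agent.Helper57Sob
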