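import Pool.Agent.Helper27_Sob.Defs

/-!
Selections of finitely many affine maps; a continuous one is Lipschitz.
-/

set_option autoImplicit false

open Set Filter Topology Metric
open scoped NNReal

namespace Pool.Agent.Helper57Sob

variable {V W X : Type*} [NormedAddCommGroup V] [NormedSpace ℝ V] [NormedAddCommGroup W]
  [NormedSpace ℝ W] [NormedAddCommGroup X] [NormedSpace ℝ X]

/-- `f` is a selection of finitely many affine maps. -/
def Sel (f : V → W) : Prop := ∃ A : Set (V →ᵃ[ℝ] W), A.Finite ∧ ∀ x, ∃ L ∈ A, f x = L x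

theorem Sel.affine (L : V →ᵃ[ℝ] W) : Sel L :=
  ⟨{L}, finite_singleton L, fun _ => ⟨L, rfl, rfl⟩⟩

theorem Sel.of_affine {f : V → W} (L : V →ᵃ[ℝ] W) (h : ∀ x, f x = L x) : Sel f :=
  ⟨{L}, finite_singleton L, fun x => ⟨L, rfl, h x⟩⟩

theorem Sel.clm (L : V →L[ℝ] W) : Sel L :=
  Sel.of_affine (L : V →ₗ[ℝ] W).toAffineMap fun _ => rfl

theorem Sel.id : Sel (fun x : V => x) := Sel.of_affine (AffineMap.id ℝ V) fun _ => rfl

theorem Sel.const (c : W) : Sel (fun _ : V => c) :=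
  Sel.of_affine (AffineMap.const ℝ V c) fun _ => rfl

theorem Sel.comp {f : W → X} {g : V → W} (hf : Sel f) (hg : Sel g) : Sel (fun x => f (g x)) := by
  obtain ⟨A, hA, h1⟩ := hf
  obtain ⟨B, hB, h2⟩ := hg
  refine ⟨image2 (fun L M => L.comp M) A B, hA.image2 _ hB, fun x => ?_⟩
  obtain ⟨M, hM, hM'⟩ := h2 x
  obtain ⟨L, hL, hL'⟩ := h1 (g x)
  exact ⟨L.comp M, ⟨L, hL, M, hM, rfl⟩, by
    change f (g x) = L (M x)
    rw [hL', hM']⟩

theorem Sel.piecewise {ι : Type*} [Finite ι] {f : V → W} {F : ι → V → W} (hF : ∀ i, Sel (F i))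
    (h : ∀ x, ∃ i, f x = F i x) : Sel f := by
  choose A hA h1 using hF
  refine ⟨⋃ i, A i, finite_iUnion hA, fun x => ?_⟩
  obtain ⟨i, hi⟩ := h x
  obtain ⟨L, hL, hL'⟩ := h1 i x
  exact ⟨L, mem_iUnion.2 ⟨i, hL⟩, by rw [hi, hL']⟩

theorem Sel.or {f F G : V → W} (hF : Sel F) (hG : Sel G) (h : ∀ x, f x = F x ∨ f x = G x) :
    Sel f := by
  refine Sel.piecewise (ι := Bool) (F := fun b => if b then F else G) (fun b => ?_) fun x => ?_
  · cases b
    · simpa using hG
    · simpa using hF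
  · rcases h x with h | h
    · exact ⟨true, by simpa using h⟩
    · exact ⟨false, by simpa using h⟩

theorem Sel.max {f g : V → ℝ} (hf : Sel f) (hg : Sel g) : Sel (fun x => max (f x) (g x)) :=
  hf.or hg fun _ => max_choice _ _

theorem Sel.min {f g : V → ℝ} (hf : Sel f) (hg : Sel g) : Sel (fun x => min (f x) (g x)) :=
  hf.or hg fun _ => min_choice _ _

theorem Sel.add {f g : V → W} (hf : Sel f) (hg : Sel g) : Sel (fun x => f x + g x) := by
  obtain ⟨A, hA, h1⟩ := hf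
  obtain ⟨B, hB, h2⟩ := hg
  refine ⟨image2 (fun L M => L + M) A B, hA.image2 _ hB, fun x => ?_⟩
  obtain ⟨M, hM, hM'⟩ := h2 x
  obtain ⟨L, hL, hL'⟩ := h1 x
  exact ⟨L + M, ⟨L, hL, M, hM, rfl⟩, by
    change f x + g x = L x + M x
    rw [hL', hM']⟩

theorem Sel.smul {f : V → W} (c : ℝ) (hf : Sel f) : Sel (fun x => c • f x) :=
  (Sel.clm (c • ContinuousLinearMap.id ℝ W)).comp hf

theorem Sel.mul {f : V → ℝ} (c : ℝ) (hf : Sel f) : Sel (fun x => c * f x) := hf.smul c

theorem Sel.neg {f : V → W} (hf : Sel f) : Sel (fun x => - f x) := by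
  simpa using hf.smul (-1)

theorem Sel.sub {f g : V → W} (hf : Sel f) (hg : Sel g) : Sel (fun x => f x - g x) := by
  simpa [sub_eq_add_neg] using hf.add hg.neg

theorem Sel.pi {ι : Type*} [Fintype ι] {f : V → ι → ℝ} (h : ∀ j, Sel (fun x => f x j)) :
    Sel f := by
  choose A hA h1 using h
  refine ⟨(fun L : (j : ι) → V →ᵃ[ℝ] ℝ => AffineMap.pi L) '' (Set.pi univ A),
    (Set.Finite.pi hA).image _, fun x => ?_⟩
  choose L hL hL' using fun j => h1 j x
  exact ⟨AffineMap.pi L, ⟨L, fun j _ => hL j, rfl⟩, by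
    funext j
    exact hL' j⟩

theorem Sel.eval {ι : Type*} [Fintype ι] (j : ι) : Sel (fun x : ι → ℝ => x j) :=
  Sel.clm (ContinuousLinearMap.proj (R := ℝ) (φ := fun _ : ι => ℝ) j)

theorem exists_norm_eq {ι : Type*} [Fintype ι] [Nonempty ι] (x : ι → ℝ) : ∃ j, ‖x‖ = |x j| := by
  by_contra h
  push Not at h
  obtain ⟨j0⟩ := (inferInstance : Nonempty ι)
  have h0 : 0 < ‖x‖ := by
    have h1 : |x j0| ≤ ‖x‖ := norm_le_pi_norm x j0
    exact lt_of_le_of_lt (abs_nonneg _) (lt_of_le_of_ne h1 (fun e => h j0 e.symm))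
  have h2 : ‖x‖ < ‖x‖ := (pi_norm_lt_iff h0).2 fun j =>
    lt_of_le_of_ne (norm_le_pi_norm x j) (fun e => h j e.symm)
  exact lt_irrefl _ h2

theorem Sel.norm {ι : Type*} [Fintype ι] [Nonempty ι] : Sel (fun x : ι → ℝ => ‖x‖) := by
  refine Sel.piecewise (ι := ι × Bool)
    (F := fun i x => if i.2 then x i.1 else - x i.1) (fun i => ?_) fun x => ?_
  · rcases i with ⟨i, b⟩
    cases b
    · simpa using (Sel.eval i).neg
    · simpa using Sel.eval i
  · obtain ⟨j, hj⟩ := exists_norm_eq x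
    rcases abs_choice (x j) with h | h
    · exact ⟨(j, true), by simp [hj, h]⟩
    · exact ⟨(j, false), by simp [hj, h]⟩

/-! ### Lipschitz -/

omit [NormedSpace ℝ W] in
theorem patch_aux {ι : Type*} [DecidableEq ι] (D : ι → Set ℝ) (hD : ∀ i, IsClosed (D i))
    (φ : ℝ → W) (K : ℝ) (hK : ∀ i, ∀ a ∈ D i, ∀ b ∈ D i, ‖φ a - φ b‖ ≤ K * |a - b|)
    (n : ℕ) : ∀ (s : Finset ι), s.card = n → ∀ (a b : ℝ), a ≤ b →
      Icc a b ⊆ ⋃ i ∈ s, D i → ‖φ a - φ b‖ ≤ K * (b - a) := by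
  induction n with
  | zero =>
    intro s hs a b hab h
    rw [Finset.card_eq_zero] at hs
    subst hs
    have := h (left_mem_Icc.2 hab)
    simp at this
  | succ n ih =>
    intro s hs a b hab h
    obtain ⟨i, hi, hai⟩ := mem_iUnion₂.1 (h (left_mem_Icc.2 hab))
    have hc : IsCompact (D i ∩ Icc a b) := (isCompact_Icc).inter_left (hD i)
    have hne : (D i ∩ Icc a b).Nonempty := ⟨a, hai, left_mem_Icc.2 hab⟩
    obtain ⟨hc1, hc2⟩ := hc.sSup_mem hne
    set c := sSup (D i ∩ Icc a b) with hcdef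
    have h1 : ‖φ a - φ c‖ ≤ K * (c - a) := by
      have := hK i a hai c hc1
      rwa [abs_sub_comm, abs_of_nonneg (by linarith [hc2.1])] at this
    rcases eq_or_lt_of_le hc2.2 with hcb | hcb
    · rw [hcb] at h1
      exact h1
    · have hcov : Ioc c b ⊆ ⋃ j ∈ s.erase i, D j := by
        intro t ht
        obtain ⟨j, hj, htj⟩ := mem_iUnion₂.1 (h ⟨hc2.1.trans ht.1.le, ht.2⟩)
        refine mem_iUnion₂.2 ⟨j, Finset.mem_erase.2 ⟨?_, hj⟩, htj⟩
        rintro rfl
        have : t ≤ c := le_csSup hc.bddAbove ⟨htj, hc2.1.trans ht.1.le, ht.2⟩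
        exact absurd ht.1 (not_lt.2 this)
      have hcl : IsClosed (⋃ j ∈ s.erase i, D j) :=
        (s.erase i).finite_toSet.isClosed_biUnion fun j _ => hD j
      have hcov' : Icc c b ⊆ ⋃ j ∈ s.erase i, D j := by
        have := closure_mono hcov
        rwa [closure_Ioc hcb.ne, hcl.closure_eq] at this
      have h2 := ih (s.erase i) (by rw [Finset.card_erase_of_mem hi, hs]; rfl) c b hcb.le hcov'
      calc ‖φ a - φ b‖ = ‖(φ a - φ c) + (φ c - φ b)‖ := by rw [sub_add_sub_cancel]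
        _ ≤ ‖φ a - φ c‖ + ‖φ c - φ b‖ := norm_add_le _ _
        _ ≤ K * (c - a) + K * (b - c) := add_le_add h1 h2
        _ = K * (b - a) := by ring

/-- A continuous selection of finitely many affine maps is Lipschitz. -/
theorem Sel.lipschitz [FiniteDimensional ℝ V] {f : V → W} (hf : Sel f) (hc : Continuous f) :
    ∃ K : ℝ≥0, LipschitzWith K f := by
  classical
  obtain ⟨A, hA, h1⟩ := hf
  obtain ⟨K, hK⟩ : ∃ K : ℝ, ∀ L ∈ A, ‖L.linear.toContinuousLinearMap‖ ≤ K := by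
    obtain ⟨K, hK⟩ := (hA.image fun L : V →ᵃ[ℝ] W => ‖L.linear.toContinuousLinearMap‖).bddAbove
    exact ⟨K, fun L hL => hK ⟨L, hL, rfl⟩⟩
  have hK' : ∀ L ∈ A, ∀ x y : V, ‖L x - L y‖ ≤ Max.max K 0 * ‖x - y‖ := by
    intro L hL x y
    have e : L x - L y = L.linear.toContinuousLinearMap (x - y) := by
      simp [← vsub_eq_sub, AffineMap.linearMap_vsub]
    rw [e]
    calc _ ≤ ‖L.linear.toContinuousLinearMap‖ * ‖x - y‖ :=
          ContinuousLinearMap.le_opNorm _ _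
      _ ≤ _ := by
          gcongr
          exact (hK L hL).trans (le_max_left _ _)
  have hLc : ∀ L : V →ᵃ[ℝ] W, Continuous L := fun L => L.continuous_of_finiteDimensional
  refine ⟨Real.toNNReal (Max.max K 0), LipschitzWith.of_dist_le_mul fun x y => ?_⟩
  rw [Real.coe_toNNReal _ (le_max_right _ _), dist_eq_norm, dist_eq_norm]
  let γ : ℝ → V := fun t => x + t • (y - x)
  have hγ : Continuous γ := by fun_prop
  have hγ' : ∀ a b, ‖γ a - γ b‖ = |a - b| * ‖x - y‖ := by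
    intro a b
    have : γ a - γ b = (a - b) • (y - x) := by
      simp only [γ, sub_smul]
      abel
    rw [this, norm_smul, Real.norm_eq_abs, norm_sub_rev y x]
  have h2 := patch_aux (ι := V →ᵃ[ℝ] W) (fun L => {t | L ∈ A ∧ f (γ t) = L (γ t)})
    (fun L => by
      by_cases hL : L ∈ A
      · simp only [hL, true_and]
        exact isClosed_eq (hc.comp hγ) ((hLc L).comp hγ)
      · simp only [hL, false_and]
        exact isClosed_empty)
    (fun t => f (γ t)) (Max.max K 0 * ‖x - y‖)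
    (fun L a ha b hb => by
      rw [ha.2, hb.2]
      calc _ ≤ Max.max K 0 * ‖γ a - γ b‖ := hK' L ha.1 _ _
        _ = _ := by rw [hγ']; ring)
    _ hA.toFinset rfl 0 1 zero_le_one
    (fun t _ => by
      obtain ⟨L, hL, hL'⟩ := h1 (γ t)
      exact mem_iUnion₂.2 ⟨L, hA.mem_toFinset.2 hL, hL, hL'⟩)
  simpa [γ] using h2

end Pool.Agent.Helper57Sob
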